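import Pool.Agent.U152.HN.Alg
import Pool.Agent.U644.NC.Conj

/-!
Congruences for absolute values of eigenvalues.
-/

namespace Pool.Agent.U152.NW

open Pool.Agent.U152.HN Pool.Agent.U644.NC

universe u

/-- The group ring of the real numbers. -/
abbrev RR := AddMonoidAlgebra ℤ ℝ

/-- The sum of the group elements of a multiset. -/
noncomputable def mpoly (S : Multiset ℝ) : RR :=
  (S.map fun a => AddMonoidAlgebra.single a (1 : ℤ)).sum

/-- The endomorphism of the group ring given by multiplication by `ℓ`. -/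
noncomputable def psi (ℓ : ℕ) : RR →+* RR :=
  AddMonoidAlgebra.mapDomainRingHom ℤ (AddMonoidHom.mulLeft (ℓ : ℝ))

lemma mpoly_coeff (S : Multiset ℝ) (a : ℝ) : (mpoly S).coeff a = (S.count a : ℤ) := by
  classical
  unfold mpoly
  induction S using Multiset.induction_on with
  | empty => simp
  | cons b S ih =>
    rw [Multiset.map_cons, Multiset.sum_cons, AddMonoidAlgebra.coeff_add, Finsupp.add_apply, ih,
      AddMonoidAlgebra.coeff_single, Multiset.count_cons, Finsupp.single_apply]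
    by_cases h : b = a
    · subst h
      simp [add_comm]
    · rw [if_neg h, if_neg (Ne.symm h)]
      simp

lemma natCast_mul_coeff (n : ℕ) (x : RR) (a : ℝ) : ((n : RR) * x).coeff a = n * x.coeff a := by
  rw [← nsmul_eq_mul, AddMonoidAlgebra.coeff_smul_apply, nsmul_eq_mul]

lemma natCast_coeff (n : ℕ) (a : ℝ) : (n : RR).coeff a = if a = 0 then (n : ℤ) else 0 := by
  have h := natCast_mul_coeff n 1 a
  rw [mul_one] at h
  rw [h, AddMonoidAlgebra.one_def, AddMonoidAlgebra.coeff_single, Finsupp.single_apply]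
  by_cases ha : a = 0
  · subst ha
    simp
  · rw [if_neg (Ne.symm ha), if_neg ha, mul_zero]

lemma sub_coeff (x y : RR) (a : ℝ) : (x - y).coeff a = x.coeff a - y.coeff a := by
  have : (x - y + y).coeff a = (x - y).coeff a + y.coeff a := by
    rw [AddMonoidAlgebra.coeff_add, Finsupp.add_apply]
  rw [sub_add_cancel] at this
  rw [this]
  ring

lemma dvd0 {n : ℕ} (_hn : 0 < n) (x : RR) : (n : RR) ∣ x ↔ ∀ a, (n : ℤ) ∣ x.coeff a := by
  constructor
  · rintro ⟨y, rfl⟩ a
    rw [natCast_mul_coeff]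
    exact dvd_mul_right _ _
  · intro h
    refine ⟨AddMonoidAlgebra.ofCoeff (x.coeff.mapRange (fun z => z / n) (by simp)), ?_⟩
    ext a
    rw [natCast_mul_coeff, AddMonoidAlgebra.coeff_ofCoeff, Finsupp.mapRange_apply]
    exact (Int.mul_ediv_cancel' (h a)).symm

lemma dvd_of_psi {ℓ : ℕ} (hℓ : 0 < ℓ) {x : RR} (h : (ℓ : RR) ∣ psi ℓ x) : (ℓ : RR) ∣ x := by
  rw [dvd0 hℓ] at h ⊢
  intro a
  have h3 := h ((ℓ : ℝ) * a)
  have h4 : (psi ℓ x).coeff ((ℓ : ℝ) * a) = x.coeff a := by
    unfold psi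
    rw [AddMonoidAlgebra.mapDomainRingHom_apply]
    have hinj : Function.Injective (AddMonoidHom.mulLeft (ℓ : ℝ)) := by
      intro b c hbc
      have : (ℓ : ℝ) * b = ℓ * c := hbc
      have hne : (ℓ : ℝ) ≠ 0 := by exact_mod_cast hℓ.ne'
      exact mul_left_cancel₀ hne this
    exact Finsupp.mapDomain_apply hinj _ _
  rw [h4] at h3
  exact h3

lemma natCast_ne {n : ℕ} (hn : 0 < n) : (n : RR) ≠ 0 := by
  intro h
  have h1 := congrArg (fun G : RR => G.coeff 0) h
  simp only [natCast_coeff, if_true] at h1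
  have h2 : ((0 : RR).coeff 0 : ℤ) = 0 := by simp
  rw [h2] at h1
  omega

/-- The smooth proper dg categories over the field with `q` elements (of characteristic `p`), the
eigenvalues (with multiplicities) of the Frobenius on `TP_0` and `TP_1`, in an algebraically closed
field `Ω`, and two constructions: `double A = A ⊗ perf E`, `E` an elliptic curve, and, for every odd
prime number `ℓ ≠ p`, `cyc ℓ A = (A^{⊗ ℓ} ⊗ perf J) ⋊ (ℤ/ℓ)`, where `J` is an abelian variety of
dimension `g ℓ` with a rational point of order `ℓ`. -/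
structure NCData (Ω : Type) [Field Ω] (q p : ℕ) where
  /-- smooth proper dg categories -/
  Obj : Type u
  /-- the eigenvalues on `TP_0` -/
  eig0 : Obj → Multiset Ω
  /-- the eigenvalues on `TP_1` -/
  eig1 : Obj → Multiset Ω
  eig0_ne : ∀ A, ∀ a ∈ eig0 A, a ≠ 0
  eig1_ne : ∀ A, ∀ a ∈ eig1 A, a ≠ 0
  /-- the tensor product with an elliptic curve -/
  double : Obj → Obj
  /-- the logarithms of the absolute values on `TP_0 (A ⊗ perf E)`, for one embedding -/
  logs_double : ∀ (i : Ω →+* ℂ) (A : Obj),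
    (eig0 (double A)).map (fun a => Real.log ‖i a‖) =
      2 • ((eig0 A).map (fun a => Real.log ‖i a‖) +
        (eig1 A).map (fun a => Real.log ‖i a‖ - Real.log q / 2))
  /-- the quotient -/
  cyc : ℕ → Obj → Obj
  /-- the dimension of `J` -/
  g : ℕ → ℕ
  dim_cyc : ∀ ℓ : ℕ, ℓ.Prime → ℓ ≠ 2 → ℓ ≠ p → ∀ A,
    ℓ * ((eig0 (cyc ℓ A)).card + (eig1 (cyc ℓ A)).card) =
    (((eig0 A).card + (eig1 A).card) ^ ℓ + (ℓ - 1) * ((eig0 A).card + (eig1 A).card)) * 4 ^ g ℓ
  /-- the logarithms of the absolute values for one embedding, divided by `√q` on `TP_1` -/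
  logs_cyc : ∀ ℓ : ℕ, ℓ.Prime → ℓ ≠ 2 → ℓ ≠ p → ∀ (i : Ω →+* ℂ) (A : Obj),
    (ℓ : RR) * mpoly ((eig0 (cyc ℓ A)).map (fun a => Real.log ‖i a‖) +
      (eig1 (cyc ℓ A)).map (fun a => Real.log ‖i a‖ - Real.log q / 2)) =
    (mpoly ((eig0 A).map (fun a => Real.log ‖i a‖) +
      (eig1 A).map (fun a => Real.log ‖i a‖ - Real.log q / 2)) ^ ℓ +
      ((ℓ : RR) - 1) * psi ℓ (mpoly ((eig0 A).map (fun a => Real.log ‖i a‖) +
      (eig1 A).map (fun a => Real.log ‖i a‖ - Real.log q / 2)))) * (4 : RR) ^ g ℓ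

namespace NCData

variable {Ω : Type} [Field Ω] {q p : ℕ} (T : NCData.{u} Ω q p)

/-- The logarithms of the absolute values of the eigenvalues for one embedding of `Ω` in the complex
numbers, those of the eigenvalues on `TP_1` divided by `√q`. -/
noncomputable def logs (i : Ω →+* ℂ) (A : T.Obj) : Multiset ℝ :=
  (T.eig0 A).map (fun a => Real.log ‖i a‖) +
    (T.eig1 A).map (fun a => Real.log ‖i a‖ - Real.log q / 2)

/-- The noncommutative Weil conjecture. -/
def Weil [CharZero Ω] : Prop := ∀ A : T.Obj,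
  (∀ a ∈ T.eig0 A, PureNumber 1 a) ∧ ∀ a ∈ T.eig1 A, PureNumber (Real.sqrt q) a

/-- For every embedding there is an odd prime number `ℓ ≠ p` such that for every `A` and every
real number `r ≠ 1` the number of the eigenvalues on `TP_0` (with multiplicities) of absolute value
`r` is divisible by `ℓ`. -/
def Congruences : Prop := ∀ i : Ω →+* ℂ, ∃ ℓ : ℕ, ℓ.Prime ∧ ℓ ≠ 2 ∧ ℓ ≠ p ∧
  ∀ (A : T.Obj) (r : ℝ), r ≠ 1 → ℓ ∣ ((T.eig0 A).map fun a => ‖i a‖).count r

variable {T}

lemma card_logs (i : Ω →+* ℂ) (A : T.Obj) :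
    (T.logs i A).card = (T.eig0 A).card + (T.eig1 A).card := by
  simp [logs]

lemma count_log (i : Ω →+* ℂ) (A : T.Obj) (c : ℝ) :
    ((T.eig0 A).map fun a => Real.log ‖i a‖).count c =
      ((T.eig0 A).map fun a => ‖i a‖).count (Real.exp c) := by
  classical
  rw [Multiset.count_map, Multiset.count_map]
  congr 1
  refine Multiset.filter_congr fun a ha => ?_
  have h3 : 0 < ‖i a‖ := norm_pos_iff.2 (fun h0 => T.eig0_ne A a ha ((map_eq_zero i).1 h0))
  constructor
  · intro h
    rw [h, Real.exp_log h3]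
  · intro h
    rw [← h, Real.log_exp]

lemma count_logs {ℓ : ℕ} (hℓ : ℓ.Prime) (hodd : ℓ ≠ 2) (i : Ω →+* ℂ)
    (h : ∀ (A : T.Obj) (r : ℝ), r ≠ 1 → ℓ ∣ ((T.eig0 A).map fun a => ‖i a‖).count r)
    (A : T.Obj) (c : ℝ) (hc : c ≠ 0) : ℓ ∣ (T.logs i A).count c := by
  classical
  have h1 : Real.exp c ≠ 1 := fun h0 => hc (Real.exp_eq_one_iff c |>.1 h0)
  have h2 := h (T.double A) (Real.exp c) h1
  rw [← count_log, T.logs_double i A, Multiset.count_nsmul] at h2
  have h3 : Nat.Coprime ℓ 2 := (Nat.coprime_primes hℓ Nat.prime_two).2 hodd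
  exact h3.dvd_of_dvd_mul_left h2

lemma count_eq_zero {ℓ : ℕ} (hℓ : ℓ.Prime) (hodd : ℓ ≠ 2) (hp : ℓ ≠ p) (i : Ω →+* ℂ)
    (h : ∀ (A : T.Obj) (c : ℝ), c ≠ 0 → ℓ ∣ (T.logs i A).count c) (A : T.Obj)
    (c : ℝ) (hc : c ≠ 0) : (T.logs i A).count c = 0 := by
  have h1 : ∀ k, 1 ≤ k → ∀ A, (ℓ : RR) ^ k ∣ mpoly (T.logs i A) - ((T.logs i A).card : RR) := by
    intro k hk
    induction k, hk using Nat.le_induction with
    | base =>
      intro A
      rw [pow_one, dvd0 hℓ.pos]
      have h2 : ∀ a, a ≠ 0 → (ℓ : ℤ) ∣ ((T.logs i A).count a : ℤ) := fun a ha => by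
        exact_mod_cast h A a ha
      intro a
      rw [sub_coeff, mpoly_coeff, natCast_coeff]
      by_cases ha : a = 0
      · subst ha
        rw [if_pos rfl]
        classical
        have h3 : ((T.logs i A).card : ℤ) =
            ∑ b ∈ (T.logs i A).toFinset, ((T.logs i A).count b : ℤ) := by
          exact_mod_cast (Multiset.toFinset_sum_count_eq (T.logs i A)).symm
        by_cases h0 : (0 : ℝ) ∈ (T.logs i A).toFinset
        · rw [h3, ← Finset.add_sum_erase _ _ h0]
          have h4 : (ℓ : ℤ) ∣ ∑ b ∈ (T.logs i A).toFinset.erase 0, ((T.logs i A).count b : ℤ) :=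
            Finset.dvd_sum fun b hb => h2 b (Finset.ne_of_mem_erase hb)
          have h5 : ((T.logs i A).count 0 : ℤ) - (((T.logs i A).count 0 : ℤ) +
              ∑ b ∈ (T.logs i A).toFinset.erase 0, ((T.logs i A).count b : ℤ)) =
              - ∑ b ∈ (T.logs i A).toFinset.erase 0, ((T.logs i A).count b : ℤ) := by ring
          rw [h5]
          exact (dvd_neg).2 h4
        · have h6 : (T.logs i A).count 0 = 0 := by
            rw [Multiset.count_eq_zero]
            intro h7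
            exact h0 (Multiset.mem_toFinset.2 h7)
          rw [h6, h3]
          have h4 : (ℓ : ℤ) ∣ ∑ b ∈ (T.logs i A).toFinset, ((T.logs i A).count b : ℤ) :=
            Finset.dvd_sum fun b hb => h2 b (fun hb0 => h0 (hb0 ▸ hb))
          simpa using h4
      · rw [if_neg ha, sub_zero]
        exact h2 a ha
    | succ k hk ih =>
      intro A
      have e1 : (ℓ : RR) * mpoly (T.logs i (T.cyc ℓ A)) =
          (mpoly (T.logs i A) ^ ℓ + ((ℓ : RR) - 1) * psi ℓ (mpoly (T.logs i A))) *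
            (4 : RR) ^ T.g ℓ := T.logs_cyc ℓ hℓ hodd hp i A
      have e2 : (ℓ : RR) * ((T.logs i (T.cyc ℓ A)).card : RR) =
          (((T.logs i A).card : RR) ^ ℓ + ((ℓ : RR) - 1) * psi ℓ ((T.logs i A).card : RR)) *
            (4 : RR) ^ T.g ℓ := by
        rw [map_natCast, card_logs, card_logs]
        have h3 := congrArg (fun n : ℕ => (n : RR)) (T.dim_cyc ℓ hℓ hodd hp A)
        have h4 : ((ℓ - 1 : ℕ) : RR) = (ℓ : RR) - 1 := by
          rw [Nat.cast_sub hℓ.one_le, Nat.cast_one]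
        simp only [Nat.cast_mul, Nat.cast_add, Nat.cast_pow, h4, Nat.cast_ofNat] at h3
        push_cast
        exact h3
      refine step ℓ (mem_nonZeroDivisors_of_ne_zero (natCast_ne hℓ.pos)) (psi ℓ)
        ((4 : RR) ^ T.g ℓ) ?_ k hk _ _ _ _ (ih A) (ih (T.cyc ℓ A)) e1 e2
      intro d hd
      apply dvd_of_psi hℓ.pos
      rw [dvd0 hℓ.pos] at hd ⊢
      intro a
      have h5 := hd a
      have h6 : psi ℓ d * (4 : RR) ^ T.g ℓ = ((4 ^ T.g ℓ : ℕ) : RR) * psi ℓ d := by
        push_cast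
        ring
      rw [h6, natCast_mul_coeff] at h5
      have h7 : IsCoprime (ℓ : ℤ) ((4 ^ T.g ℓ : ℕ) : ℤ) := by
        rw [Nat.isCoprime_iff_coprime]
        refine Nat.Coprime.pow_right _ ?_
        have : Nat.Coprime ℓ 2 := (Nat.coprime_primes hℓ Nat.prime_two).2 hodd
        exact this.mul_right this
      exact h7.dvd_of_dvd_mul_left h5
  have h2 : ∀ k, (ℓ : ℤ) ^ k ∣ ((T.logs i A).count c : ℤ) := by
    intro k
    rcases Nat.eq_zero_or_pos k with rfl | hk
    · simp
    · have h3 := h1 k hk A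
      have h4 : (ℓ : RR) ^ k = ((ℓ ^ k : ℕ) : RR) := by push_cast; rfl
      rw [h4, dvd0 (pow_pos hℓ.pos k)] at h3
      have h5 := h3 c
      rw [sub_coeff, mpoly_coeff, natCast_coeff, if_neg hc, sub_zero] at h5
      exact_mod_cast h5
  by_contra h0
  have h3 := Nat.le_of_dvd (Nat.pos_of_ne_zero h0)
    (by exact_mod_cast h2 ((T.logs i A).count c) :
      ℓ ^ ((T.logs i A).count c) ∣ (T.logs i A).count c)
  exact absurd h3 (not_le.2 (Nat.lt_pow_self hℓ.one_lt))

theorem main [CharZero Ω] [IsAlgClosed Ω] (hΩ : Cardinal.mk Ω = Cardinal.continuum)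
    (hq : 0 < q) : T.Weil ↔ T.Congruences := by
  classical
  constructor
  · intro h i
    obtain ⟨ℓ, hℓ1, hℓ⟩ := Nat.exists_infinite_primes (p + 3)
    refine ⟨ℓ, hℓ, by omega, by omega, fun A r hr => ?_⟩
    have h0 : ((T.eig0 A).map fun a => ‖i a‖).count r = 0 := by
      rw [Multiset.count_eq_zero]
      intro hmem
      rw [Multiset.mem_map] at hmem
      obtain ⟨a, ha, hac⟩ := hmem
      have h1 := (pureNumber_iff.1 ((h A).1 a ha)) (i a) (isConj_map i)
      rw [h1] at hac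
      exact hr hac.symm
    rw [h0]
    exact dvd_zero _
  · intro h A
    have h1 : ∀ i : Ω →+* ℂ, ∀ c ∈ T.logs i A, c = 0 := by
      intro i c hcm
      by_contra hc
      obtain ⟨ℓ, hℓ, hodd, hp, hcong⟩ := h i
      exact (Multiset.count_ne_zero.2 hcm)
        (count_eq_zero hℓ hodd hp i (count_logs hℓ hodd i hcong) A c hc)
    refine ⟨fun a ha => ?_, fun a ha => ?_⟩
    · refine pureNumber_of_forall hΩ fun i => ?_
      have h2 := h1 i (Real.log ‖i a‖) (Multiset.mem_add.2 (Or.inl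
        (Multiset.mem_map.2 ⟨a, ha, rfl⟩)))
      have h3 : 0 < ‖i a‖ := norm_pos_iff.2 (fun h0 => T.eig0_ne A a ha
        ((map_eq_zero i).1 h0))
      exact Real.eq_one_of_pos_of_log_eq_zero h3 h2
    · refine pureNumber_of_forall hΩ fun i => ?_
      have h2 := h1 i (Real.log ‖i a‖ - Real.log q / 2) (Multiset.mem_add.2 (Or.inr
        (Multiset.mem_map.2 ⟨a, ha, rfl⟩)))
      have h3 : 0 < ‖i a‖ := norm_pos_iff.2 (fun h0 => T.eig1_ne A a ha
        ((map_eq_zero i).1 h0))
      have h4 : 0 < Real.sqrt q := Real.sqrt_pos.2 (by exact_mod_cast hq)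
      refine Real.log_injOn_pos h3 h4 ?_
      rw [Real.log_sqrt (Nat.cast_nonneg q)]
      linarith

end NCData

end Pool.Agent.U152.NW
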